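import Mathlib
import Pool.Agent.W516.KU.Defs

set_option autoImplicit false

/-! Task KU-ADJ: the extension of the coefficients in a generated algebra. -/

namespace Pool.Agent.W52.KU

theorem T_ADJ : Pool.Agent.W516.KU.S_ADJ := by
  intro k L H _ _ _ _ _ S a ha
  induction ha using Algebra.adjoin_induction with
  | mem x hx => exact Algebra.subset_adjoin ⟨x, hx, rfl⟩
  | algebraMap r =>
    have h : (algebraMap k (Module.End k H) r).baseChange L =
        algebraMap L (Module.End L (TensorProduct k L H)) (algebraMap k L r) := by
      rw [Algebra.algebraMap_eq_smul_one, LinearMap.baseChange_smul, LinearMap.baseChange_one,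
        Algebra.algebraMap_eq_smul_one, algebraMap_smul]
    rw [h]
    exact Subalgebra.algebraMap_mem _ _
  | add x y _ _ hx hy =>
    rw [LinearMap.baseChange_add]
    exact add_mem hx hy
  | mul x y _ _ hx hy =>
    rw [LinearMap.baseChange_mul]
    exact mul_mem hx hy

end Pool.Agent.W52.KU
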